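import Pool.Agent.Helper67.Fin.St4

set_option autoImplicit false

namespace Pool.Agent.Helper76.FN

open Pool.Agent.Helper67.Fin Pool.Agent.Helper86.ML Pool.Agent.Helper67.Cour

/-- the tent function on the integers -/
noncomputable def tent (n : ℕ) (k : ℤ) : ℝ := max (1 - |(k : ℝ)| / n) 0

theorem tent_lip {n : ℕ} (hn : 0 < n) (j k : ℤ) {m : ℕ} (hj : |j| ≤ m) :
    (tent n (j + k) - tent n k) ^ 2 ≤ ((m : ℝ) / n) ^ 2 := by
  have hn' : (0 : ℝ) < n := by exact_mod_cast hn
  have hj' : |(j : ℝ)| ≤ m := by exact_mod_cast hj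
  have h1 : |tent n (j + k) - tent n k| ≤ (m : ℝ) / n := by
    unfold tent
    refine (abs_max_sub_max_le_abs _ _ _).trans ?_
    have h2 : (1 - |((j + k : ℤ) : ℝ)| / n) - (1 - |(k : ℝ)| / n) =
        (|(k : ℝ)| - |((j + k : ℤ) : ℝ)|) / n := by ring
    rw [h2, abs_div, abs_of_pos hn']
    refine div_le_div_of_nonneg_right ?_ hn'.le
    refine (abs_abs_sub_abs_le _ _).trans ?_
    push_cast
    have h3 : (k : ℝ) - (j + k) = -j := by ring
    rw [h3, abs_neg]
    exact hj'
  have h0 : 0 ≤ |tent n (j + k) - tent n k| := abs_nonneg _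
  rw [← sq_abs]
  exact pow_le_pow_left₀ h0 h1 2

theorem tent_zero {n : ℕ} (hn : 0 < n) {k : ℤ} (hk : (n : ℤ) ≤ |k|) : tent n k = 0 := by
  have hn' : (0 : ℝ) < n := by exact_mod_cast hn
  have hk' : (n : ℝ) ≤ |(k : ℝ)| := by exact_mod_cast hk
  unfold tent
  apply max_eq_right
  have : 1 ≤ |(k : ℝ)| / n := by rwa [le_div_iff₀ hn', one_mul]
  linarith

theorem tent_one (n : ℕ) : tent n 0 = 1 := by
  simp [tent]

theorem tent_sum {n m : ℕ} (hn : 0 < n) (hm : m < n) (j : ℤ) (hj : |j| ≤ m) :
    ∑' k : ℤ, (tent n (j + k) - tent n k) ^ 2 ≤ 5 * (m : ℝ) ^ 2 / n := by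
  have hn' : (0 : ℝ) < n := by exact_mod_cast hn
  rw [tsum_eq_sum (s := Finset.Icc (-(n + m : ℤ)) (n + m))]
  · refine (Finset.sum_le_sum fun k _ => tent_lip hn j k hj).trans ?_
    rw [Finset.sum_const, nsmul_eq_mul, Int.card_Icc]
    have h1 : ((((n : ℤ) + m + 1 - -(n + m)).toNat : ℕ) : ℝ) ≤ 5 * n := by
      have h2 : ((n : ℤ) + m + 1 - -(n + m)).toNat ≤ 5 * n := by omega
      exact_mod_cast h2
    calc ((((n : ℤ) + m + 1 - -(n + m)).toNat : ℕ) : ℝ) * ((m : ℝ) / n) ^ 2
        ≤ (5 * n) * ((m : ℝ) / n) ^ 2 := mul_le_mul_of_nonneg_right h1 (sq_nonneg _)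
      _ = 5 * (m : ℝ) ^ 2 / n := by field_simp
  · intro k hk
    rw [Finset.mem_Icc, not_and_or, not_le, not_le] at hk
    have h1 : (n : ℤ) ≤ |k| := by
      rcases hk with h | h
      · rw [abs_of_neg (by omega)]
        omega
      · exact le_trans (by omega) (le_abs_self k)
    have h2 : (n : ℤ) ≤ |j + k| := by
      have h3 := abs_le.1 hj
      rcases hk with h | h
      · rw [abs_of_neg (by omega)]
        omega
      · exact le_trans (by omega) (le_abs_self (j + k))
    rw [tent_zero hn h1, tent_zero hn h2]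
    simp

theorem rec_int {G : Type} [Group G] (e : G ≃* Multiplicative ℤ) : RecPt G (1 : G) := by
  intro S ε hε
  obtain ⟨m, hm⟩ : ∃ m : ℕ, ∀ s ∈ S, |(Multiplicative.toAdd (e s))| ≤ m := by
    refine ⟨∑ s ∈ S, (Multiplicative.toAdd (e s)).natAbs, fun s hs => ?_⟩
    have h1 : (Multiplicative.toAdd (e s)).natAbs ≤
        ∑ s ∈ S, (Multiplicative.toAdd (e s)).natAbs :=
      Finset.single_le_sum (f := fun s => (Multiplicative.toAdd (e s)).natAbs)
        (fun _ _ => Nat.zero_le _) hs
    rw [Int.abs_eq_natAbs]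
    exact_mod_cast h1
  obtain ⟨n, hn1⟩ := exists_nat_gt ((S.card : ℝ) * (5 * (m : ℝ) ^ 2) / ε + m)
  have hpos : 0 ≤ (S.card : ℝ) * (5 * (m : ℝ) ^ 2) / ε := by positivity
  have hmn : m < n := by
    have : (m : ℝ) < n := by linarith
    exact_mod_cast this
  have hn : 0 < n := lt_of_le_of_lt (Nat.zero_le _) hmn
  have hn' : (0 : ℝ) < n := by exact_mod_cast hn
  have key : ∀ s ∈ S, ∑' k : G, (tent n (Multiplicative.toAdd (e (s • k))) -
      tent n (Multiplicative.toAdd (e k))) ^ 2 ≤ 5 * (m : ℝ) ^ 2 / n := by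
    intro s hs
    have h1 : ∑' k : G, (tent n (Multiplicative.toAdd (e (s • k))) -
        tent n (Multiplicative.toAdd (e k))) ^ 2 =
        ∑' k : ℤ, (tent n (Multiplicative.toAdd (e s) + k) - tent n k) ^ 2 := by
      rw [← (e.toEquiv.trans Multiplicative.toAdd).tsum_eq]
      refine tsum_congr fun k => ?_
      simp [smul_eq_mul, map_mul, toAdd_mul]
    rw [h1]
    exact tent_sum hn hmn _ (hm s hs)
  refine ⟨fun x => tent n (Multiplicative.toAdd (e x)), ?_, ?_, ?_⟩
  · have h1 : (Function.support fun x => tent n (Multiplicative.toAdd (e x))) ⊆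
        (e.toEquiv.trans Multiplicative.toAdd) ⁻¹' (Set.Icc (-(n : ℤ)) n) := by
      intro x hx
      rw [Function.mem_support] at hx
      rw [Set.mem_preimage, Set.mem_Icc]
      by_contra hcon
      apply hx
      apply tent_zero hn
      have h2 : ((e.toEquiv.trans Multiplicative.toAdd) x) = Multiplicative.toAdd (e x) := rfl
      rw [h2] at hcon
      rcases not_and_or.1 hcon with h | h
      · rw [not_le] at h
        rw [abs_of_neg (by omega)]
        omega
      · rw [not_le] at h
        exact h.le.trans (le_abs_self _)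
    exact ((Set.finite_Icc _ _).preimage (Equiv.injective _).injOn).subset h1
  · simp [tent_one]
  · refine lt_of_le_of_lt (Finset.sum_le_sum key) ?_
    rw [Finset.sum_const, nsmul_eq_mul, ← mul_div_assoc, div_lt_iff₀ hn']
    have h2 : (S.card : ℝ) * (5 * (m : ℝ) ^ 2) / ε < n := by
      have : (0 : ℝ) ≤ m := Nat.cast_nonneg m
      linarith
    rw [div_lt_iff₀ hε] at h2
    linarith

theorem rec_sub {G X : Type} [Group G] [MulAction G X] [Subsingleton X] (x : X) : RecPt G x := by
  intro S ε hε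
  refine ⟨fun _ => 1, Set.toFinite _, rfl, ?_⟩
  simpa using hε

theorem fg_comm (α : Type) [Subsingleton α] (a b : FreeGroup α) : a * b = b * a := by
  rcases isEmpty_or_nonempty α with h | h
  · have : Subsingleton (FreeGroup α) := inferInstance
    exact Subsingleton.elim _ _
  · have : Inhabited α := Classical.inhabited_of_nonempty h
    have : Unique α := Unique.mk' α
    apply (FreeGroup.mulEquivIntOfUnique (α := α)).injective
    rw [map_mul, map_mul, mul_comm]

theorem hFRC (h1 : StABR) : StFRC := by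
  intro α _
  constructor
  · rcases isEmpty_or_nonempty α with h | h
    · have : Subsingleton (FreeGroup α) := inferInstance
      exact rec_sub _
    · have : Inhabited α := Classical.inhabited_of_nonempty h
      have : Unique α := Unique.mk' α
      exact rec_int (FreeGroup.mulEquivIntOfUnique (α := α))
  · intro ν hν
    refine h1 (FreeGroup α) ⊤ (fun a _ b _ => fg_comm α a b) ?_ ν hν
    have : Subsingleton (FreeGroup α ⧸ (⊤ : Subgroup (FreeGroup α))) :=
      QuotientGroup.subsingleton_quotient_top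
    exact rec_sub _

end Pool.Agent.Helper76.FN
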